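import Pool.Agent.W703.GP.Fin4

/-! For almost every convex polygon `D` with `N` sides there are only finitely many congruence
classes of convex polygons with at most `N` sides and with the spectrum of `D`. -/

open Set MeasureTheory
open Pool.Agent.W780.PG (IsConvexPolygon region)
open Pool.Agent.W703.GP (Isospectral dirichletEigenvalue)

namespace Pool.Agent.Results.MP_4eed4e_an.GenericConvexPolygons

/-- There is an open set `G` of lists of `n + 3` points of the plane, containing Lebesgue-almost
every list of the vertices of a convex polygon, such that each `p` in `G` lists the vertices of a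
convex polygon and there is a finite set `S` of plane domains such that each convex polygon with
at most `n + 3` vertices isospectral to `p` is congruent to a member of `S`. -/
theorem result (n : ℕ) :
    ∃ G : Set (Fin (n + 3) → ℂ), IsOpen G ∧ volume ({p | IsConvexPolygon p} \ G) = 0 ∧
      ∀ p ∈ G, IsConvexPolygon p ∧ ∃ S : Set (Set ℂ), S.Finite ∧
        ∀ m ≤ n, ∀ q : Fin (m + 3) → ℂ, IsConvexPolygon q → Isospectral (region p) (region q) →
            ∃ Q ∈ S, ∃ φ : ℂ ≃ᵢ ℂ, φ '' Q = region q := by
  obtain ⟨G, hG, h0, h1⟩ := Pool.Agent.W703.GP.open_full_measure n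
  refine ⟨G, hG, h0, fun p hp => ?_⟩
  obtain ⟨hc, K, S, hS, h2⟩ := h1 p hp
  exact ⟨hc, S, hS, fun m hm q hq h => (h2 m hm q hq fun k _ _ => h k).2.2⟩

end Pool.Agent.Results.MP_4eed4e_an.GenericConvexPolygons
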